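import Pool.Agent.Lib.MP_26a456_lc.NotCoRT
import Pool.Agent.Lib.MP_26a456_lc.Search
import Pool.Agent.Lib.MP_26a456_lc.TwoRan
import Pool.Agent.Lib.MP_26a456_lc.WorldEx

/-!
# `2-RAN` does not imply `coRT^2_2(2130)` over `RCA_0 + BΣ^0_2`

The permutation with range sequence `2130` is separable, and there is a model of
`RCA_0 + BΣ^0_2 + 2-RAN` in which `coRT^2_2(2130)` fails.

Proof idea. The model is an initial segment of an ultrapower of worlds. In the `i`-th world a
colouring is built by a finite injury construction with only `i` priority levels, each of them
deals with all functionals below a number `T_l` at once; since only `i` levels are used, every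
finite weighted set of vertices contains an independent set of relative weight `4 ^ (-i)`, so
that a level can catch oracles of positive measure. In the model the levels form a cut on which
all strategies stabilise, the number `i` is nonstandard, and the random oracle provides `2-RAN`.
-/

namespace Pool.Agent.Results.MP_26a456_lc.NotProvable

open Pool.Agent.SepRT

theorem separable_2130 : Separable [2, 1, 3, 0] := by
  have h1 : Separable [1, 0] := Separable.ssum [0] [0] Separable.one Separable.one
  have h2 : Separable [1, 0, 2] := Separable.dsum [1, 0] [0] h1 Separable.one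
  exact Separable.ssum [1, 0, 2] [0] h2 Separable.one

theorem result : Separable [2, 1, 3, 0] ∧
    ∃ A : L2, RCA0 A ∧ BSigma2 A ∧ TwoRAN A ∧ ¬ CoRT A [2, 1, 3, 0] := by
  obtain ⟨A⟩ := exists_fam
  exact ⟨separable_2130, Mod A, ⟨basicAx, iSigma1, delta1CA⟩, bSigma2, twoRAN, not_coRT⟩

end Pool.Agent.Results.MP_26a456_lc.NotProvable
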